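import Pool.Agent.Lib.US76.Roth89c

/-! Roth's lemma, qualitative form. -/

open MvPolynomial

namespace US76.R89

variable {σ : Type} [Fintype σ] [DecidableEq σ]

theorem count_ge {N : ℕ} (φ : Fin N → ℕ) (hφ : Function.Injective φ) (hlt : ∀ l, φ l < N)
    {x c : ℝ} (hx : 0 ≤ x) (hxN : x < N) (hc : 0 < c) :
    c * x < ∑ l, if (φ l : ℝ) ≤ x then c else 0 := by
  let ψ : Fin N → Fin N := fun l => ⟨φ l, hlt l⟩
  have hψ : Function.Bijective ψ :=
    Finite.injective_iff_bijective.1 fun a b h => hφ (congrArg Fin.val h)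
  have e := hψ.sum_comp fun l : Fin N => if ((l : ℕ) : ℝ) ≤ x then c else 0
  rw [show (∑ l, if (φ l : ℝ) ≤ x then c else 0) = _ from e,
    Fin.sum_univ_eq_sum_range (fun k : ℕ => if (k : ℝ) ≤ x then c else 0)]
  have hsub : Finset.range (⌊x⌋₊ + 1) ⊆ Finset.range N :=
    Finset.range_subset_range.2 ((Nat.floor_lt hx).2 hxN)
  refine lt_of_lt_of_le ?_ (Finset.sum_le_sum_of_subset_of_nonneg hsub fun k _ _ => by
    split_ifs <;> linarith)
  rw [Finset.sum_congr rfl (g := fun _ => c) fun k hk => if_pos
    ((Nat.le_floor_iff hx).1 (Nat.lt_succ_iff.1 (Finset.mem_range.1 hk)))]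
  simp only [Finset.sum_const, Finset.card_range, nsmul_eq_mul]
  have := Nat.lt_floor_add_one x
  push_cast
  nlinarith

/-- The hypotheses of Roth's lemma; variables with `r h = 0` do not occur. -/
structure Hyp (ω : ℝ) (r : σ → ℕ) (ξ : σ → ℚ) (P : MvPolynomial σ ℚ) (β : ℝ) : Prop where
  ne : P ≠ 0
  zc : Zc P
  deg : P ∈ dg r
  far : ∀ h h', h ≠ h' → (r h : ℝ) ≤ ω * r h' ∨ (r h' : ℝ) ≤ ω * r h
  pos : 0 ≤ β
  bd : Bd (Real.exp β) P
  ht : ∀ h, r h ≠ 0 →
    β + ∑ k, (r k : ℝ) ≤ ω * r h * Real.log (max (ξ h).num.natAbs (ξ h).den : ℕ)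

omit [Fintype σ] in
theorem slice {z : σ} {ρ τ : σ → ℕ} (hρ : ρ z = 0) (hτ : ∀ h, h ≠ z → τ h = 0)
    {U V : MvPolynomial σ ℚ} (hU : U ∈ dg ρ) (hV : V ∈ dg τ) (h0 : U * V ≠ 0) :
    ∃ u v : ℚ, u ≠ 0 ∧ v ≠ 0 ∧ (∀ a, coeff a (v • U) = 0 ∨ ∃ b, coeff a (v • U) = coeff b (U * V))
      ∧ ∀ a, coeff a (u • V) = 0 ∨ ∃ b, coeff a (u • V) = coeff b (U * V) := by
  obtain ⟨a, ha⟩ := ne_zero_iff.1 (left_ne_zero_of_mul h0)
  obtain ⟨b, hb⟩ := ne_zero_iff.1 (right_ne_zero_of_mul h0)
  have k1 : ∀ a, coeff a U ≠ 0 → a z = 0 := fun a ha => by have := hU a ha z; omega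
  have k2 : ∀ b, coeff b V ≠ 0 → ∀ h, h ≠ z → b h = 0 := fun b hb h hh => by
    have := hV b hb h; have := hτ h hh; omega
  refine ⟨_, _, ha, hb, fun c => ?_, fun c => ?_⟩
  · by_cases hc : coeff c U = 0
    · left; simp [hc]
    · right
      exact ⟨c + b, by rw [sep hρ hτ hU hV (k1 c hc) (k2 b hb), coeff_smul, smul_eq_mul, mul_comm]⟩
  · by_cases hc : coeff c V = 0
    · left; simp [hc]
    · right
      exact ⟨a + c, by rw [sep hρ hτ hU hV (k1 a ha) (k2 c hc), coeff_smul, smul_eq_mul]⟩

theorem roth_ind (m : MonomialOrder σ) (n : ℕ) : ∀ θ : ℝ, 0 < θ → θ ≤ 1 → ∃ ω : ℝ, 0 < ω ∧ ω ≤ 1 ∧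
    ∀ (r : σ → ℕ) (ξ : σ → ℚ) (P : MvPolynomial σ ℚ) (β : ℝ),
      (Finset.univ.filter fun h => r h ≠ 0).card = n → Hyp ω r ξ P β →
      ∃ i : σ →₀ ℕ, coeff i (sh ξ P) ≠ 0 ∧ ∑ h, (i h : ℝ) * (r h : ℝ)⁻¹ ≤ θ := by
  induction n with
  | zero =>
    intro θ h0 _
    refine ⟨1, one_pos, le_rfl, fun r ξ P β hc H => ?_⟩
    have hr : ∀ h, r h = 0 := fun h => by
      by_contra hh
      exact Finset.card_ne_zero_of_mem (s := Finset.univ.filter fun h => r h ≠ 0) (a := h)
        (by simpa using hh) hc
    obtain ⟨a, ha⟩ := ne_zero_iff.1 H.ne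
    have hP : P = C (coeff a P) := by
      have k : ∀ b, coeff b P ≠ 0 → b = 0 := fun b hb => by
        ext h
        have := H.deg b hb h
        rw [hr h] at this
        simpa using this
      ext b
      rw [coeff_C]
      split_ifs with hb
      · rw [← hb, k a ha]
      · by_contra hh
        exact hb (k b hh).symm
    refine ⟨0, ?_, by simpa using h0.le⟩
    rw [hP]
    simpa [sh] using ha
  | succ n ih =>
    intro θ h0 h1
    have hθ' : 0 < θ ^ 2 / 32 := by positivity
    obtain ⟨ω', w0, w1, IH⟩ := ih (θ ^ 2 / 32) hθ' (by nlinarith)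
    refine ⟨min (ω' / 4) (θ ^ 2 / 128), by positivity, (min_le_left _ _).trans (by linarith),
      fun r ξ P β hc H => ?_⟩
    set ω := min (ω' / 4) (θ ^ 2 / 128) with hω
    have o0 : 0 < ω := by positivity
    have o1 : ω ≤ ω' / 4 := min_le_left _ _
    have o2 : ω ≤ θ ^ 2 / 128 := min_le_right _ _
    clear_value ω
    clear ih hω
    have o3 : ω ≤ ω' := by linarith
    have o4 : ω ≤ θ / 4 := by nlinarith
    obtain ⟨z, hz, hmin⟩ := Finset.exists_min_image (Finset.univ.filter fun h => r h ≠ 0) r
      (Finset.card_pos.1 (by omega))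
    have hz : r z ≠ 0 := by simpa using hz
    have rz : (1 : ℝ) ≤ r z := by exact_mod_cast Nat.one_le_iff_ne_zero.2 hz
    have hfar : ∀ h, h ≠ z → r h ≠ 0 → (r z : ℝ) ≤ ω * r h := by
      intro h hh hr
      have h2 : (r z : ℝ) ≤ r h := by exact_mod_cast hmin h (by simpa using hr)
      rcases H.far h z hh with h3 | h3
      · exact (h2.trans h3).trans (mul_le_mul_of_nonneg_left h2 o0.le)
      · exact h3
    obtain ⟨N, hN, f, g, hf, hg, lf, lg, hP⟩ := dec H.deg z
    have N0 : 0 < N := by
      rcases N with _ | N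
      · exact absurd (by simpa using hP) H.ne
      · omega
    have N1 : (1 : ℝ) ≤ N := by exact_mod_cast N0
    have N2 : (N : ℝ) ≤ r z + 1 := by exact_mod_cast hN
    obtain ⟨ii, hii, hU0⟩ := gw m f lf
    obtain ⟨kk, hkk, hV0⟩ := gw m g lg
    have hρ : (fun h => if h = z then 0 else r h) z = 0 := if_pos rfl
    have hτ : ∀ h, h ≠ z → (fun h => if h = z then r z else 0) h = 0 := fun h hh => if_neg hh
    have i0 : ∀ k h, h = z ∨ r h = 0 → ii k h = 0 := by
      intro k h hh
      by_contra h2
      refine hU0 (Matrix.det_eq_zero_of_row_eq_zero k fun j => hs_eq_zero (hf j) (h := h) ?_)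
      have : (if h = z then 0 else r h) = 0 := by rcases hh with hh | hh <;> simp [hh]
      omega
    have k0 : ∀ k h, h ≠ z → kk k h = 0 := by
      intro k h hh
      by_contra h2
      refine hV0 (Matrix.det_eq_zero_of_row_eq_zero k fun j => hs_eq_zero (hg j) (h := h) ?_)
      simp [hh]; omega
    have ks : ∀ k, ∑ h, kk k h = kk k z := fun k =>
      Finset.sum_eq_single z (fun h _ hh => k0 k h hh) (by simp)
    have kinj : Function.Injective fun k => kk k z := by
      intro a b hab
      by_contra hne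
      have : kk a = kk b := by
        ext h
        by_cases hh : h = z
        · rw [hh]; exact hab
        · rw [k0 a h hh, k0 b h hh]
      exact hV0 (Matrix.det_zero_of_row_eq hne (by funext j; simp [this]))
    set U := (Matrix.of fun k j => hs (ii k) (f j)).det with hU
    set V := (Matrix.of fun k j => hs (kk k) (g j)).det with hV
    have hW : (Matrix.of fun k l => hs (ii k + kk l) P).det = U * V := by
      rw [hU, hV, ← Matrix.det_transpose (Matrix.of fun k j => hs (kk k) (g j)), ← Matrix.det_mul]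
      congr 1
      ext1 k l
      simp only [Matrix.of_apply, Matrix.mul_apply, Matrix.transpose_apply]
      rw [hP, hs_sum]
      exact Finset.sum_congr rfl fun j _ =>
        hs_mul (z := z) (ρ := fun h => if h = z then 0 else r h) hρ hτ (hf j) (hg j)
          (i0 k z (Or.inl rfl)) (k0 l)
    have dU : U ∈ dg fun h => N * if h = z then 0 else r h := dg_det fun k j => hs_dg (hf j) _
    have dV : V ∈ dg fun h => N * if h = z then r z else 0 := dg_det fun k j => hs_dg (hg j) _
    clear_value U V
    have hρ' : (fun h => N * if h = z then 0 else r h) z = 0 := by simp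
    have hτ' : ∀ h, h ≠ z → (fun h => N * if h = z then r z else 0) h = 0 := fun h hh => by
      simp [hh]
    set R : ℝ := ∑ h, (r h : ℝ) with hR
    have zR : (r z : ℝ) ≤ R :=
      Finset.single_le_sum (f := fun h => (r h : ℝ)) (fun h _ => by positivity) (Finset.mem_univ z)
    clear_value R
    have zW : Zc (U * V) := hW ▸ zc_det fun k l => zc_hs H.zc _
    have bW : Bd (Real.exp (N * (β + 3 * R))) (U * V) := by
      intro a
      rw [← hW]
      refine (bd_det (fun k l => card_le (hs_dg H.deg _)) (fun k l => bd_hs H.deg H.bd _) a).trans ?_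
      rw [← hR, Real.exp_nat_mul]
      have e1 : (N.factorial : ℝ) ≤ Real.exp R ^ N := by
        have e2 : (N.factorial : ℝ) ≤ (N : ℝ) ^ N := by exact_mod_cast Nat.factorial_le_pow N
        refine e2.trans (pow_le_pow_left₀ (by positivity) ?_ _)
        linarith [Real.add_one_le_exp R]
      have e3 : Real.exp (β + 3 * R) = Real.exp R * (Real.exp R * (Real.exp β * Real.exp R)) := by
        simp only [← Real.exp_add]; congr 1; ring
      rw [e3, mul_pow (Real.exp R) (Real.exp R * (Real.exp β * Real.exp R))]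
      exact mul_le_mul_of_nonneg_right e1 (by positivity)
    obtain ⟨u, v, hu, hv, sU, sV⟩ := slice (z := z)
      (ρ := fun h => N * if h = z then 0 else r h) hρ' hτ' dU dV (mul_ne_zero hU0 hV0)
    have tz : ∀ F : MvPolynomial σ ℚ, (∀ a, coeff a F = 0 ∨ ∃ b, coeff a F = coeff b (U * V)) →
        Zc F ∧ Bd (Real.exp (N * (β + 3 * R))) F := by
      intro F hF
      refine ⟨fun a => ?_, fun a => ?_⟩
      · rcases hF a with h | ⟨b, h⟩ <;> rw [h]
        · exact zero_mem _
        · exact zW b
      · rcases hF a with h | ⟨b, h⟩ <;> rw [h]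
        · simpa using (Real.exp_pos _).le
        · exact bW b
    have hb0 := H.pos
    obtain ⟨a, ha, wa⟩ := IH (fun h => N * if h = z then 0 else r h) ξ (v • U) (N * (β + 3 * R))
      (by
        have : (Finset.univ.filter fun h => (N * if h = z then 0 else r h) ≠ 0)
            = (Finset.univ.filter fun h => r h ≠ 0).erase z := by
          ext h
          by_cases hh : h = z <;> simp [hh, N0.ne']
        rw [this, Finset.card_erase_of_mem (by simpa using hz), hc]
        rfl)
      ⟨smul_ne_zero hv hU0, (tz _ sU).1, Submodule.smul_mem _ _ dU, by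
        intro h h' hne
        by_cases e1 : h = z
        · left; simp only [e1, if_true]; push_cast; simp only [mul_zero]; positivity
        by_cases e2 : h' = z
        · right; simp only [e2, if_true]; push_cast; simp only [mul_zero]; positivity
        simp only [e1, e2, if_false]
        push_cast
        have p1 : (0 : ℝ) ≤ r h := by positivity
        have p2 : (0 : ℝ) ≤ r h' := by positivity
        refine (H.far h h' hne).imp (fun h3 => ?_) fun h3 => ?_
        · rw [mul_left_comm]
          exact mul_le_mul_of_nonneg_left (h3.trans (mul_le_mul_of_nonneg_right o3 p2))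
            (by positivity)
        · rw [mul_left_comm]
          exact mul_le_mul_of_nonneg_left (h3.trans (mul_le_mul_of_nonneg_right o3 p1))
            (by positivity), mul_nonneg (by linarith) (by linarith), (tz _ sU).2, by
        intro h hh
        have e1 : h ≠ z := by rintro rfl; simp at hh
        have e2 : r h ≠ 0 := by intro h2; simp [h2] at hh
        have e3 := H.ht h e2
        rw [← hR] at e3
        have e4 : ∑ k, ((N * if k = z then 0 else r k : ℕ) : ℝ) ≤ N * R := by
          rw [hR, Finset.mul_sum]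
          refine Finset.sum_le_sum fun k _ => ?_
          split_ifs
          · simp only [mul_zero, Nat.cast_zero]; positivity
          · push_cast; exact le_rfl
        simp only [e1, if_false]
        set L := Real.log (max (ξ h).num.natAbs (ξ h).den : ℕ)
        have p1 : (0 : ℝ) ≤ r h * L := mul_nonneg (by positivity) (Real.log_natCast_nonneg _)
        have e5 : β + 4 * R ≤ ω' * (r h * L) := by
          have := mul_le_mul_of_nonneg_right o1 p1
          linarith
        have e6 := mul_le_mul_of_nonneg_left e5 (zero_le_one.trans N1)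
        rw [Nat.cast_mul]
        linarith⟩
    have e3 := H.ht z hz
    rw [← hR] at e3
    have L0 : 0 < Real.log (max (ξ z).num.natAbs (ξ z).den : ℕ) := by
      by_contra hh
      have : ω * r z * Real.log (max (ξ z).num.natAbs (ξ z).den : ℕ) ≤ 0 :=
        mul_nonpos_of_nonneg_of_nonpos (by positivity) (not_lt.1 hh)
      linarith
    obtain ⟨k, hk, wk⟩ := one_var hτ' (Submodule.smul_mem _ u dV) (smul_ne_zero hu hV0)
      (tz _ sV).1 (tz _ sV).2 ξ (t := θ ^ 2 / 32 * (N * r z)) (by positivity) L0 (by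
        set L := Real.log (max (ξ z).num.natAbs (ξ z).den : ℕ)
        have p1 : (0 : ℝ) ≤ r z * L := by positivity
        have e5 : β + 3 * R ≤ θ ^ 2 / 32 * (r z * L) := by
          have := mul_le_mul_of_nonneg_right o2 p1
          linarith
        have e6 := mul_le_mul_of_nonneg_left e5 (zero_le_one.trans N1)
        linarith)
    rw [map_smul, coeff_smul] at ha hk
    have ha := right_ne_zero_of_smul ha
    have hk := right_ne_zero_of_smul hk
    have az : a z = 0 := by simpa using sh_dg dU ξ a ha z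
    have hne : coeff (a + Finsupp.single z k) (sh ξ (U * V)) ≠ 0 := by
      rw [map_mul, sep (z := z) (ρ := fun h => N * if h = z then 0 else r h) hρ' hτ' (sh_dg dU ξ)
        (sh_dg dV ξ) az fun h hh => by simp [hh]]
      exact mul_ne_zero ha hk
    by_contra hcon
    push Not at hcon
    have low : Ge (fun h => (r h : ℝ)⁻¹)
        (∑ l, if (kk l z : ℝ) ≤ θ * N / 4 then θ / 4 else 0) (sh ξ (U * V)) := by
      rw [← hW, AlgHom.map_det]
      refine ge_det fun k l b hb => ?_
      simp only [AlgHom.mapMatrix_apply, Matrix.map_apply, Matrix.of_apply, sh_hs, coeff_hs] at hb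
      have q1 := hcon _ (left_ne_zero_of_mul hb)
      simp only [Finsupp.add_apply, Nat.cast_add, add_mul, Finset.sum_add_distrib] at q1
      split_ifs with hl
      · have q2 : ∑ h, (ii k h : ℝ) * (r h : ℝ)⁻¹ ≤ ω := by
          have q3 : ∑ h, (ii k h : ℝ) * (r h : ℝ)⁻¹ ≤ ∑ h, (ii k h : ℝ) * (ω / r z) := by
            refine Finset.sum_le_sum fun h _ => ?_
            by_cases hh : h = z ∨ r h = 0
            · simp [i0 k h hh]
            · push Not at hh
              refine mul_le_mul_of_nonneg_left ?_ (by positivity)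
              have : (0 : ℝ) < r h := by exact_mod_cast Nat.pos_of_ne_zero hh.2
              rw [inv_eq_one_div, div_le_div_iff₀ this (by linarith), one_mul]
              exact hfar h hh.1 hh.2
          rw [← Finset.sum_mul] at q3
          have q4 : ∑ h, (ii k h : ℝ) ≤ r z := by
            have := hii k
            have : ∑ h, ii k h ≤ r z := by omega
            exact_mod_cast this
          refine q3.trans ((mul_le_mul_of_nonneg_right q4 (by positivity)).trans (le_of_eq ?_))
          field_simp
        have q5 : ∑ h, (kk l h : ℝ) * (r h : ℝ)⁻¹ ≤ θ / 2 := by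
          rw [Finset.sum_eq_single z (fun h _ hh => by simp [k0 l h hh]) (by simp),
            ← div_eq_mul_inv, div_le_iff₀ (by linarith)]
          have := mul_le_mul_of_nonneg_left (show (N : ℝ) ≤ 2 * r z by linarith) h0.le
          linarith
        linarith
      · exact Finset.sum_nonneg fun h _ => by positivity
    have c1 := count_ge (fun l => kk l z) kinj (fun l => by have := hkk l; rwa [ks] at this)
      (x := θ * N / 4) (c := θ / 4) (by positivity) (by
        have := mul_le_mul_of_nonneg_right h1 (zero_le_one.trans N1)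
        linarith) (by positivity)
    have c2 := low _ hne
    simp only [Finsupp.add_apply, Nat.cast_add, add_mul, Finset.sum_add_distrib] at c2
    have c3 : ∑ h, (a h : ℝ) * (r h : ℝ)⁻¹ ≤ N * (θ ^ 2 / 32) := by
      refine le_trans (le_of_eq ?_) (mul_le_mul_of_nonneg_left wa (by positivity))
      rw [Finset.mul_sum]
      refine Finset.sum_congr rfl fun h _ => ?_
      split_ifs with hh
      · simp [hh, az]
      · push_cast
        rw [mul_inv]
        field_simp
    have c4 : ∑ h, ((Finsupp.single z k : σ →₀ ℕ) h : ℝ) * (r h : ℝ)⁻¹ ≤ N * (θ ^ 2 / 32) := by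
      rw [Finset.sum_eq_single z (fun h _ hh => by simp [hh]) (by simp), Finsupp.single_eq_same,
        ← div_eq_mul_inv, div_le_iff₀ (by linarith)]
      linarith
    linarith

/-- Roth's lemma. -/
theorem roth (m : ℕ) (th : ℝ) (hth : 0 < th) : ∃ om : ℝ, 0 < om ∧ om ≤ 1 ∧
    ∀ (r : Fin m → ℕ) (xi : Fin m → ℚ) (P : MvPolynomial (Fin m) ℤ) (be : ℝ), P ≠ 0 →
      (∀ h, 0 < r h) → (∀ h, P.degreeOf h ≤ r h) →
      (∀ h h', h < h' → (r h' : ℝ) ≤ om * r h) → 0 ≤ be →
      (∀ a, |((P.coeff a : ℤ) : ℝ)| ≤ Real.exp be) →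
      (∀ h, be + ∑ k, (r k : ℝ) ≤ om * r h * Real.log (max (xi h).num.natAbs (xi h).den : ℕ)) →
      ∃ i : Fin m →₀ ℕ,
        coeff i (aeval (fun h => X h + C (xi h)) P : MvPolynomial (Fin m) ℚ) ≠ 0 ∧
        ∑ h, (i h : ℝ) / r h ≤ th := by
  obtain ⟨ω, h0, h1, H⟩ := roth_ind (σ := Fin m) MonomialOrder.lex m (min th 1)
    (lt_min hth one_pos) (min_le_right _ _)
  refine ⟨ω, h0, h1, fun r xi P be hP hr hd hf hb hc hh => ?_⟩
  have inj : Function.Injective (Int.castRingHom ℚ) := Int.cast_injective
  obtain ⟨i, hi, wi⟩ := H r xi (map (Int.castRingHom ℚ) P) be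
    (by rw [Finset.filter_true_of_mem fun h _ => (hr h).ne']; simp)
    ⟨fun h => hP (map_injective _ inj (by rw [h, map_zero])),
      fun a => by rw [coeff_map]; exact ⟨_, rfl⟩,
      fun a ha h => by
        refine le_trans (monomial_le_degreeOf h (mem_support_iff.2 fun h2 => ha ?_)) (hd h)
        rw [coeff_map, h2, map_zero],
      fun h h' hne => (lt_or_gt_of_ne hne).symm.imp (hf h' h) (hf h h'), hb,
      fun a => by rw [coeff_map]; simpa using hc a, fun h _ => hh h⟩
  refine ⟨i, ?_, ?_⟩
  · rwa [sh, ← algebraMap_int_eq, aeval_map_algebraMap] at hi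
  · simp only [div_eq_mul_inv]
    exact wi.trans (min_le_left _ _)

end US76.R89
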