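import Mathlib

/-! Hasse derivatives of polynomials in several variables, and the shift `X ↦ X + ξ`. -/

open MvPolynomial

namespace US76.R89

variable {σ : Type} [Fintype σ] [DecidableEq σ]

/-- Product of binomial coefficients. -/
def bn (a i : σ →₀ ℕ) : ℕ := ∏ h, (a h).choose (i h)

/-- Hasse derivative. -/
noncomputable def hs (i : σ →₀ ℕ) (P : MvPolynomial σ ℚ) : MvPolynomial σ ℚ :=
  ∑ a ∈ P.support, monomial (a - i) (coeff a P * bn a i)

/-- The shift `X ↦ X + ξ`. -/
noncomputable def sh (ξ : σ → ℚ) : MvPolynomial σ ℚ →ₐ[ℚ] MvPolynomial σ ℚ :=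
  aeval fun h => X h + C (ξ h)

omit [DecidableEq σ] in
theorem bn_zero {a i : σ →₀ ℕ} (h : ¬ i ≤ a) : bn a i = 0 := by
  rw [Finsupp.le_def] at h
  push Not at h
  obtain ⟨x, hx⟩ := h
  exact Finset.prod_eq_zero (Finset.mem_univ x) (Nat.choose_eq_zero_of_lt hx)

theorem coeff_hs (i b : σ →₀ ℕ) (P : MvPolynomial σ ℚ) :
    coeff b (hs i P) = coeff (b + i) P * bn (b + i) i := by
  rw [hs, coeff_sum, Finset.sum_eq_single (b + i)]
  · rw [coeff_monomial, if_pos (add_tsub_cancel_right b i)]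
  · intro a _ hne
    rw [coeff_monomial]
    split_ifs with h
    · have : ¬ i ≤ a := fun hle => hne (by rw [← h, tsub_add_cancel_of_le hle])
      rw [bn_zero this]; simp
    · rfl
  · intro h
    rw [notMem_support_iff.1 h]; simp

theorem hs_add (i : σ →₀ ℕ) (P Q : MvPolynomial σ ℚ) : hs i (P + Q) = hs i P + hs i Q := by
  ext b; simp only [coeff_hs, coeff_add]; ring

theorem hs_smul (i : σ →₀ ℕ) (c : ℚ) (P : MvPolynomial σ ℚ) : hs i (c • P) = c • hs i P := by
  ext b; simp only [coeff_hs, coeff_smul, smul_eq_mul]; ring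

theorem hs_sum {ι : Type} (i : σ →₀ ℕ) (s : Finset ι) (P : ι → MvPolynomial σ ℚ) :
    hs i (∑ j ∈ s, P j) = ∑ j ∈ s, hs i (P j) := by
  ext b; simp only [coeff_hs, coeff_sum, Finset.sum_mul]

theorem hs_monomial (i a : σ →₀ ℕ) (c : ℚ) :
    hs i (monomial a c) = monomial (a - i) (c * bn a i) := by
  ext b
  rw [coeff_hs, coeff_monomial, coeff_monomial]
  by_cases h : a = b + i
  · subst h; simp
  · rw [if_neg h]
    split_ifs with h2
    · have : ¬ i ≤ a := fun hle => h (by rw [← h2, tsub_add_cancel_of_le hle])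
      rw [bn_zero this]; simp
    · simp

theorem coeff_pw (ξ : σ → ℚ) (a b : σ →₀ ℕ) :
    coeff b (∏ h, (X h + C (ξ h) : MvPolynomial σ ℚ) ^ a h)
      = ∏ h, (ξ h ^ (a h - b h) * (a h).choose (b h)) := by
  simp only [add_pow]
  rw [Finset.prod_univ_sum, coeff_sum]
  have key : ∀ p : σ → ℕ, (∏ h, (X h ^ p h * C (ξ h) ^ (a h - p h) *
      (((a h).choose (p h) : ℕ) : MvPolynomial σ ℚ))) = monomial (Finsupp.equivFunOnFinite.symm p)
        (∏ h, (ξ h ^ (a h - p h) * (a h).choose (p h))) := by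
    intro p
    rw [monomial_eq, Finsupp.prod_fintype _ _ (by simp), map_prod, ← Finset.prod_mul_distrib]
    refine Finset.prod_congr rfl fun h _ => ?_
    simp only [map_mul, map_pow, map_natCast, Finsupp.coe_equivFunOnFinite_symm]
    ring
  simp only [key, coeff_monomial]
  rw [Finset.sum_eq_single (b : σ → ℕ)]
  · simp
  · intro p _ hne
    rw [if_neg]
    intro h
    apply hne
    rw [← h]; simp
  · intro h
    rw [Fintype.mem_piFinset] at h
    push Not at h
    obtain ⟨x, hx⟩ := h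
    have hx' : a x < b x := by simpa using hx
    have : (∏ h, (ξ h ^ (a h - b h) * ((a h).choose (b h) : ℚ))) = 0 :=
      Finset.prod_eq_zero (Finset.mem_univ x) (by rw [Nat.choose_eq_zero_of_lt hx']; simp)
    rw [this]; simp

theorem taylor (ξ : σ → ℚ) (b : σ →₀ ℕ) (P : MvPolynomial σ ℚ) :
    coeff b (sh ξ P) = eval ξ (hs b P) := by
  induction P using MvPolynomial.induction_on' with
  | monomial a c =>
    rw [hs_monomial, eval_monomial, sh, aeval_monomial, Finsupp.prod_fintype _ _ (by simp),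
      Finsupp.prod_fintype _ _ (by simp), algebraMap_eq, coeff_C_mul, coeff_pw,
      Finset.prod_mul_distrib, bn]
    simp only [Finsupp.coe_tsub, Pi.sub_apply]
    push_cast
    ring
  | add P Q hP hQ => rw [map_add, coeff_add, hs_add, map_add, hP, hQ]

omit [DecidableEq σ] in
theorem bn_mul (c b i : σ →₀ ℕ) :
    bn (c + (b + i)) (b + i) * bn (b + i) i = bn (c + b + i) i * bn (c + b) b := by
  simp only [bn, ← Finset.prod_mul_distrib]
  refine Finset.prod_congr rfl fun h _ => ?_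
  simp only [Finsupp.add_apply]
  rw [Nat.choose_mul (Nat.le_add_left _ _), ← add_assoc, Nat.add_sub_cancel, Nat.add_sub_cancel]

theorem hs_hs (b i : σ →₀ ℕ) (P : MvPolynomial σ ℚ) :
    hs b (hs i P) = (bn (b + i) i : ℚ) • hs (b + i) P := by
  ext c
  simp only [coeff_hs, coeff_smul, smul_eq_mul]
  have := congrArg (Nat.cast : ℕ → ℚ) (bn_mul c b i)
  push_cast at this
  rw [add_assoc c b i] at this ⊢
  linear_combination (-coeff (c + (b + i)) P) * this

theorem sh_hs (ξ : σ → ℚ) (i : σ →₀ ℕ) (P : MvPolynomial σ ℚ) :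
    sh ξ (hs i P) = hs i (sh ξ P) := by
  ext b
  rw [coeff_hs, taylor, taylor, hs_hs, smul_eval, mul_comm]

/-- Polynomials with bounded degree in each variable. -/
def dg (ρ : σ → ℕ) : Submodule ℚ (MvPolynomial σ ℚ) where
  carrier := {F | ∀ a, coeff a F ≠ 0 → ∀ h, a h ≤ ρ h}
  add_mem' := by
    intro F G hF hG a ha
    by_cases h : coeff a F = 0
    · exact hG a (by simpa [h] using ha)
    · exact hF a h
  zero_mem' := by intro a ha; simp at ha
  smul_mem' := by
    intro c F hF a ha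
    exact hF a fun h => ha (by simp [h])

theorem hs_dg {ρ : σ → ℕ} {F : MvPolynomial σ ℚ} (hF : F ∈ dg ρ) (i : σ →₀ ℕ) :
    hs i F ∈ dg ρ := by
  intro a ha h
  rw [coeff_hs] at ha
  have := hF _ (left_ne_zero_of_mul ha) h
  simp only [Finsupp.add_apply] at this
  omega

theorem hs_eq_zero {ρ : σ → ℕ} {F : MvPolynomial σ ℚ} (hF : F ∈ dg ρ) {i : σ →₀ ℕ} {h : σ}
    (hi : ρ h < i h) : hs i F = 0 := by
  ext a
  rw [coeff_hs, coeff_zero]
  by_contra ha
  have := hF _ (left_ne_zero_of_mul ha) h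
  simp only [Finsupp.add_apply] at this
  omega

theorem sh_dg {ρ : σ → ℕ} {F : MvPolynomial σ ℚ} (hF : F ∈ dg ρ) (ξ : σ → ℚ) :
    sh ξ F ∈ dg ρ := by
  intro a ha h
  by_contra hlt
  rw [taylor, hs_eq_zero hF (not_le.1 hlt)] at ha
  simp at ha

omit [Fintype σ] in
/-- Coefficients of a product of polynomials in separate variables. -/
theorem sep {z : σ} {ρ τ : σ → ℕ} (hρ : ρ z = 0) (hτ : ∀ h, h ≠ z → τ h = 0)
    {F G : MvPolynomial σ ℚ} (hF : F ∈ dg ρ) (hG : G ∈ dg τ) {a b : σ →₀ ℕ} (ha : a z = 0)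
    (hb : ∀ h, h ≠ z → b h = 0) : coeff (a + b) (F * G) = coeff a F * coeff b G := by
  rw [coeff_mul, Finset.sum_eq_single (a, b)]
  · rintro ⟨c, d⟩ hcd hne
    have hcd : c + d = a + b := by simpa using hcd
    by_contra h0
    have h1 := hF c (left_ne_zero_of_mul h0)
    have h2 := hG d (right_ne_zero_of_mul h0)
    have hca : c = a := by
      ext h
      have h3 := congrArg (fun x : σ →₀ ℕ => x h) hcd
      simp only [Finsupp.add_apply] at h3
      by_cases hz : h = z
      · subst hz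
        have := h1 h
        omega
      · have := h2 h
        have := hτ h hz
        have := hb h hz
        omega
    subst hca
    exact hne (by rw [add_left_cancel hcd])
  · intro h; simp at h

theorem hs_mul {z : σ} {ρ τ : σ → ℕ} (hρ : ρ z = 0) (hτ : ∀ h, h ≠ z → τ h = 0)
    {F G : MvPolynomial σ ℚ} (hF : F ∈ dg ρ) (hG : G ∈ dg τ) {i j : σ →₀ ℕ} (hi : i z = 0)
    (hj : ∀ h, h ≠ z → j h = 0) : hs (i + j) (F * G) = hs i F * hs j G := by
  ext c
  obtain ⟨c1, c2, rfl, h1, h2⟩ : ∃ c1 c2 : σ →₀ ℕ, c = c1 + c2 ∧ c1 z = 0 ∧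
      ∀ h, h ≠ z → c2 h = 0 :=
    ⟨c.erase z, Finsupp.single z (c z), (Finsupp.erase_add_single z c).symm, by simp,
      fun h hh => by simp [hh]⟩
  rw [sep hρ hτ (hs_dg hF i) (hs_dg hG j) h1 h2, coeff_hs, coeff_hs, coeff_hs,
    add_add_add_comm, sep hρ hτ hF hG (by simp [h1, hi]) (fun h hh => by simp [h2 h hh, hj h hh])]
  have : bn (c1 + i + (c2 + j)) (i + j) = bn (c1 + i) i * bn (c2 + j) j := by
    simp only [bn, ← Finset.prod_mul_distrib]
    refine Finset.prod_congr rfl fun h _ => ?_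
    by_cases hz : h = z
    · subst hz; simp [h1, hi]
    · simp [h2 h hz, hj h hz]
  rw [this]
  push_cast
  ring

end US76.R89
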