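import Pool.Agent.Lib.US76.Roth89a

/-! Generalised Wronskians of linearly independent polynomials, and shortest decompositions. -/

open MvPolynomial
open scoped MonomialOrder

namespace US76.R89

variable {σ : Type} [Fintype σ] [DecidableEq σ]

theorem exists_ker {W κ : Type} [Fintype κ] [DecidableEq κ] (r : W → κ → ℚ)
    (h : ∀ w : κ → W, (Matrix.of fun a j => r (w a) j).det = 0) :
    ∃ c : κ → ℚ, c ≠ 0 ∧ ∀ w, ∑ j, c j * r w j = 0 := by
  have hlt : Submodule.span ℚ (Set.range r) < ⊤ := by
    rw [lt_top_iff_ne_top]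
    intro htop
    obtain ⟨κ', a, -, hsp, hli⟩ := exists_linearIndependent' ℚ r
    rw [htop] at hsp
    let b : Module.Basis κ' ℚ (κ → ℚ) := Module.Basis.mk hli (by rw [hsp])
    let e : κ ≃ κ' := (Pi.basisFun ℚ κ).indexEquiv b
    have h2 : LinearIndependent ℚ (Matrix.of fun x j => r (a (e x)) j).row :=
      hli.comp e e.injective
    have h3 := (Matrix.isUnit_iff_isUnit_det _).1 (Matrix.linearIndependent_rows_iff_isUnit.1 h2)
    exact h3.ne_zero (h fun x => a (e x))
  obtain ⟨g, hg, hle⟩ := Submodule.exists_le_ker_of_lt_top _ hlt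
  have hgx : ∀ x : κ → ℚ, g x = ∑ j, g (Pi.single j 1) * x j := by
    intro x
    conv_lhs => rw [pi_eq_sum_univ' x, map_sum]
    refine Finset.sum_congr rfl fun j _ => ?_
    rw [map_smul, smul_eq_mul, mul_comm]
  refine ⟨fun j => g (Pi.single j 1), fun h0 => hg ?_, fun w => ?_⟩
  · refine LinearMap.ext fun x => ?_
    rw [hgx x]
    refine Finset.sum_eq_zero fun j _ => ?_
    have := congrFun h0 j
    simp only [Pi.zero_apply] at this
    rw [this, zero_mul]
  · rw [← hgx]
    exact hle (Submodule.subset_span ⟨w, rfl⟩)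

theorem bn_step (a i : σ →₀ ℕ) (h : σ) :
    (a h : ℚ) * bn a i = (i h + 1) * bn a (i + Finsupp.single h 1) + i h * bn a i := by
  have e1 : bn a i = (a h).choose (i h) * ∏ k ∈ Finset.univ.erase h, (a k).choose (i k) :=
    (Finset.mul_prod_erase _ (fun k => (a k).choose (i k)) (Finset.mem_univ h)).symm
  have e2 : bn a (i + Finsupp.single h 1)
      = (a h).choose (i h + 1) * ∏ k ∈ Finset.univ.erase h, (a k).choose (i k) := by
    rw [bn, ← Finset.mul_prod_erase _ _ (Finset.mem_univ h)]
    congr 1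
    · simp
    · refine Finset.prod_congr rfl fun k hk => ?_
      simp [Finset.ne_of_mem_erase hk]
  have e3 : ((a h).choose (i h + 1) : ℚ) * (i h + 1) = (a h).choose (i h) * (a h - i h) := by
    rcases le_or_gt (i h) (a h) with hle | hlt
    · have := congrArg (Nat.cast : ℕ → ℚ) (Nat.choose_succ_right_eq (a h) (i h))
      push_cast [Nat.cast_sub hle] at this
      exact this
    · rw [Nat.choose_eq_zero_of_lt hlt, Nat.choose_eq_zero_of_lt (by omega)]; simp
  rw [e2, e1]
  push_cast
  linear_combination (-∏ k ∈ Finset.univ.erase h, ((a k).choose (i k) : ℚ)) * e3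

theorem interp {ι : Type} [Fintype ι] [DecidableEq ι] (a : ι → σ →₀ ℕ)
    (ha : Function.Injective a) (d : ℕ) : ∀ c : ι → ℚ,
    (Finset.univ.filter fun l => c l ≠ 0).card ≤ d + 1 →
    (∀ i : σ →₀ ℕ, ∑ h, i h ≤ d → ∑ l, c l * bn (a l) i = 0) → c = 0 := by
  have base : ∀ (d : ℕ) (c : ι → ℚ) (l0 : ι), (∀ l, l ≠ l0 → c l = 0) →
      (∀ i : σ →₀ ℕ, ∑ h, i h ≤ d → ∑ l, c l * bn (a l) i = 0) → c l0 = 0 := by
    intro d c l0 h1 h2
    have := h2 0 (by simp)
    rw [Finset.sum_eq_single l0 (fun l _ hl => by rw [h1 l hl, zero_mul]) (by simp)] at this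
    simpa [bn] using this
  induction d with
  | zero =>
    intro c hc h
    funext l0
    by_contra h0
    refine h0 (base 0 c l0 (fun l hl => ?_) h)
    by_contra h1
    exact hl (Finset.card_le_one.1 hc l (by simpa using h1) l0 (by simpa using h0))
  | succ d ih =>
    intro c hc h
    funext l0
    by_contra h0
    refine h0 (base _ c l0 (fun l1 hl => ?_) h)
    by_contra h1
    obtain ⟨x, hx⟩ : ∃ x, a l0 x ≠ a l1 x := by
      by_contra hh
      push Not at hh
      exact hl (ha (Finsupp.ext hh)).symm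
    have := ih (fun l => c l * ((a l x : ℚ) - a l1 x)) ?_ ?_
    · have h2 := congrFun this l0
      simp only [Pi.zero_apply, mul_eq_zero, sub_eq_zero, Nat.cast_inj] at h2
      exact h2.elim h0 hx
    · have hsub : (Finset.univ.filter fun l => c l * ((a l x : ℚ) - a l1 x) ≠ 0) ⊆
          (Finset.univ.filter fun l => c l ≠ 0).erase l1 := by
        intro l hl
        simp only [Finset.mem_filter, Finset.mem_univ, true_and, Finset.mem_erase] at hl ⊢
        refine ⟨?_, left_ne_zero_of_mul hl⟩
        rintro rfl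
        simp at hl
      have h3 := Finset.card_le_card hsub
      rw [Finset.card_erase_of_mem (by simpa using h1)] at h3
      omega
    · intro i hi
      have e1 := h i (by omega)
      have e2 := h (i + Finsupp.single x 1) (by
        simp only [Finsupp.add_apply, Finset.sum_add_distrib]
        have : ∑ h, (Finsupp.single x 1 : σ →₀ ℕ) h = 1 := by simp [Finsupp.single_apply]
        omega)
      have : ∀ l, c l * ((a l x : ℚ) - a l1 x) * bn (a l) i
          = (i x + 1) * (c l * bn (a l) (i + Finsupp.single x 1))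
            + ((i x : ℚ) - a l1 x) * (c l * bn (a l) i) := by
        intro l
        linear_combination c l * bn_step (a l) i x
      simp only [this, Finset.sum_add_distrib, ← Finset.mul_sum, e1, e2]
      simp

theorem interp_det {n : ℕ} (a : Fin n → σ →₀ ℕ) (ha : Function.Injective a) :
    ∃ i : Fin n → σ →₀ ℕ, (∀ k, ∑ h, i k h < n) ∧
      (Matrix.of fun k l => (bn (a l) (i k) : ℚ)).det ≠ 0 := by
  by_contra hcon
  push Not at hcon
  obtain ⟨c, hc, hk⟩ := exists_ker (W := {i : σ →₀ ℕ // ∑ h, i h < n})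
    (fun w l => (bn (a l) w.1 : ℚ)) fun w => hcon (fun k => (w k).1) fun k => (w k).2
  rcases n with _ | n
  · exact hc (funext fun x => x.elim0)
  · refine hc (interp a ha n c ?_ fun i hi => hk ⟨i, by omega⟩)
    exact (Finset.card_le_univ _).trans (by simp)

omit [Fintype σ] [DecidableEq σ] in
theorem echelon (m : MonomialOrder σ) {V : Type} [AddCommGroup V] [Module ℚ V]
    [FiniteDimensional ℚ V] (L : V →ₗ[ℚ] MvPolynomial σ ℚ) (hL : Function.Injective L) (n : ℕ) :
    ∀ M : Submodule ℚ V, n ≤ Module.finrank ℚ M → ∃ v : Fin n → V, (∀ l, v l ∈ M ∧ L (v l) ≠ 0) ∧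
      Function.Injective fun l => m.degree (L (v l)) := by
  induction n with
  | zero => exact fun M _ => ⟨fun x => x.elim0, fun x => x.elim0, fun x => x.elim0⟩
  | succ n ih =>
    intro M hM
    obtain ⟨v0, hv0, hne⟩ : ∃ v0 ∈ M, v0 ≠ 0 := by
      refine Submodule.exists_mem_ne_zero_of_ne_bot ?_
      rintro rfl
      simp at hM
    have hL0 : L v0 ≠ 0 := fun h => hne (hL (by rw [h, map_zero]))
    let φ : M →ₗ[ℚ] ℚ := ((lcoeff ℚ (m.degree (L v0))).comp L).domRestrict M
    have h1 := φ.finrank_range_add_finrank_ker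
    have h2 : Module.finrank ℚ (LinearMap.range φ) ≤ 1 :=
      (Submodule.finrank_le _).trans (by simp)
    obtain ⟨v, hv, hinj⟩ := ih ((LinearMap.ker φ).map M.subtype)
      (by rw [Submodule.finrank_map_subtype_eq]; omega)
    have hv' : ∀ l, v l ∈ M ∧ m.degree (L (v l)) ≠ m.degree (L v0) := by
      intro l
      obtain ⟨x, hx, hxe⟩ := (hv l).1
      refine ⟨hxe ▸ x.2, fun he => ?_⟩
      have h3 : coeff (m.degree (L v0)) (L (v l)) = 0 := by rw [← hxe]; exact hx
      rw [← he] at h3
      exact (hv l).2 (m.leadingCoeff_eq_zero_iff.1 h3)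
    refine ⟨Fin.cons v0 v, fun l => ?_, ?_⟩
    · refine Fin.cases ?_ (fun k => ?_) l
      · exact ⟨hv0, hL0⟩
      · exact ⟨(hv' k).1, (hv k).2⟩
    · intro x y
      refine Fin.cases ?_ (fun k => ?_) x <;> refine Fin.cases ?_ (fun k' => ?_) y
      · exact fun _ => rfl
      · exact fun h => absurd h.symm (hv' k').2
      · exact fun h => absurd h (hv' k).2
      · exact fun h => congrArg Fin.succ (hinj h)

omit [Fintype σ] [DecidableEq σ] in
theorem coeff_prod_le (m : MonomialOrder σ) {ι : Type} [DecidableEq ι] (s : Finset ι)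
    (F : ι → MvPolynomial σ ℚ) (a : ι → σ →₀ ℕ) (h : ∀ l, m.degree (F l) ≼[m] a l) :
    m.degree (∏ l ∈ s, F l) ≼[m] ∑ l ∈ s, a l ∧
      coeff (∑ l ∈ s, a l) (∏ l ∈ s, F l) = ∏ l ∈ s, coeff (a l) (F l) := by
  refine ⟨m.degree_prod_le.trans ?_, ?_⟩
  · rw [map_sum, map_sum]
    exact Finset.sum_le_sum fun l _ => h l
  · induction s using Finset.induction_on with
    | empty => simp
    | insert x s hx ih =>
      simp only [Finset.prod_insert hx, Finset.sum_insert hx]
      rw [m.coeff_mul_of_add_of_degree_le (h x), ih]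
      refine m.degree_prod_le.trans ?_
      rw [map_sum, map_sum]
      exact Finset.sum_le_sum fun l _ => h l

theorem coeff_mon_hs (i a : σ →₀ ℕ) (F : MvPolynomial σ ℚ) :
    coeff a (monomial i 1 * hs i F) = coeff a F * bn a i := by
  rw [coeff_monomial_mul']
  split_ifs with h
  · rw [coeff_hs, tsub_add_cancel_of_le h, one_mul]
  · rw [bn_zero h]; simp

/-- Some generalised Wronskian of order `< n` does not vanish. -/
theorem gw (m : MonomialOrder σ) {n : ℕ} (f : Fin n → MvPolynomial σ ℚ)
    (hf : LinearIndependent ℚ f) : ∃ i : Fin n → σ →₀ ℕ, (∀ k, ∑ h, i k h < n) ∧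
      (Matrix.of fun k j => hs (i k) (f j)).det ≠ 0 := by
  obtain ⟨v, hv, hinj⟩ := echelon m (Fintype.linearCombination ℚ f)
    hf.fintypeLinearCombination_injective n ⊤ (by simp)
  set e : Fin n → MvPolynomial σ ℚ := fun l => Fintype.linearCombination ℚ f (v l) with he
  obtain ⟨i, hi, hdet⟩ := interp_det (fun l => m.degree (e l)) hinj
  refine ⟨i, hi, fun h0 => ?_⟩
  have h1 : (Matrix.of fun k l => hs (i k) (e l))
      = (Matrix.of fun k j => hs (i k) (f j)) * Matrix.of fun j l => C (v l j) := by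
    ext1 k l
    simp only [Matrix.of_apply, Matrix.mul_apply, he, Fintype.linearCombination_apply, hs_sum,
      hs_smul]
    refine Finset.sum_congr rfl fun j _ => ?_
    rw [smul_eq_C_mul, mul_comm]
  have h2 : (Matrix.of fun k l => monomial (i k) 1 * hs (i k) (e l)).det = 0 := by
    have := Matrix.det_mul_column (fun k => (monomial (i k) 1 : MvPolynomial σ ℚ))
      (Matrix.of fun k l => hs (i k) (e l))
    simp only [Matrix.of_apply] at this
    rw [this, h1, Matrix.det_mul, h0]; simp
  have h3 := congrArg (coeff (∑ l, m.degree (e l))) h2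
  rw [Matrix.det_apply, coeff_sum, coeff_zero] at h3
  have h4 := Matrix.det_mul_row (fun l => m.leadingCoeff (e l))
    (Matrix.of fun k l => (bn (m.degree (e l)) (i k) : ℚ))
  have h5 : ∏ l, m.leadingCoeff (e l) ≠ 0 :=
    Finset.prod_ne_zero_iff.2 fun l _ => m.leadingCoeff_ne_zero_iff.2 (hv l).2
  refine mul_ne_zero h5 hdet ?_
  rw [← h4, Matrix.det_apply, ← h3]
  refine Finset.sum_congr rfl fun p _ => ?_
  rw [Units.smul_def, Units.smul_def, coeff_smul, (coeff_prod_le m _ _ _ fun l => ?_).2]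
  · simp only [Matrix.of_apply, coeff_mon_hs]
    rfl
  · refine m.degree_le_degree_of_support_subset fun a ha => ?_
    rw [mem_support_iff] at ha ⊢
    rw [Matrix.of_apply, coeff_mon_hs] at ha
    exact left_ne_zero_of_mul ha

theorem shorten {R : Type} [CommRing R] [Algebra ℚ R] (B : Submodule ℚ R) {n : ℕ}
    (f g : Fin (n + 1) → R) (hg : ∀ j, g j ∈ B) (hf : ¬ LinearIndependent ℚ f) :
    ∃ (j0 : Fin (n + 1)) (g' : Fin n → R), (∀ j, g' j ∈ B) ∧
      ∑ j, f j * g j = ∑ j, f (j0.succAbove j) * g' j := by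
  obtain ⟨c, hc, j0, hj⟩ := Fintype.not_linearIndependent_iff.1 hf
  refine ⟨j0, fun j => g (j0.succAbove j) - (c (j0.succAbove j) / c j0) • g j0,
    fun j => B.sub_mem (hg _) (B.smul_mem _ (hg _)), ?_⟩
  rw [Fin.sum_univ_succAbove _ j0] at hc ⊢
  have h1 : f j0 = -∑ j, (c (j0.succAbove j) / c j0) • f (j0.succAbove j) := by
    have h2 : f j0 = (c j0)⁻¹ • (c j0 • f j0) := by rw [smul_smul, inv_mul_cancel₀ hj, one_smul]
    rw [h2, eq_neg_of_add_eq_zero_left hc, smul_neg, Finset.smul_sum]
    simp only [smul_smul, div_eq_inv_mul]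
  simp only [mul_sub, Finset.sum_sub_distrib]
  rw [h1, neg_mul, Finset.sum_mul]
  simp only [smul_mul_assoc, mul_smul_comm]
  ring

theorem shortest {R : Type} [CommRing R] [Algebra ℚ R] (A B : Submodule ℚ R) (n : ℕ) :
    ∀ f g : Fin n → R, (∀ j, f j ∈ A) → (∀ j, g j ∈ B) → ∃ N ≤ n, ∃ f' g' : Fin N → R,
      (∀ j, f' j ∈ A) ∧ (∀ j, g' j ∈ B) ∧ LinearIndependent ℚ f' ∧ LinearIndependent ℚ g' ∧
      ∑ j, f j * g j = ∑ j, f' j * g' j := by
  induction n with
  | zero => exact fun f g hf hg => ⟨0, le_rfl, f, g, hf, hg, linearIndependent_empty_type,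
      linearIndependent_empty_type, rfl⟩
  | succ n ih =>
    intro f g hf hg
    by_cases h1 : LinearIndependent ℚ f
    · by_cases h2 : LinearIndependent ℚ g
      · exact ⟨_, le_rfl, f, g, hf, hg, h1, h2, rfl⟩
      · obtain ⟨j0, f', hf', e⟩ := shorten A g f hf h2
        obtain ⟨N, hN, f2, g2, a1, a2, a3, a4, a5⟩ := ih f' (fun j => g (j0.succAbove j)) hf'
          fun j => hg _
        refine ⟨N, by omega, f2, g2, a1, a2, a3, a4, ?_⟩
        rw [← a5]
        simpa only [mul_comm] using e
    · obtain ⟨j0, g', hg', e⟩ := shorten B f g hg h1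
      obtain ⟨N, hN, f2, g2, a1, a2, a3, a4, a5⟩ := ih (fun j => f (j0.succAbove j)) g'
        (fun j => hf _) hg'
      exact ⟨N, by omega, f2, g2, a1, a2, a3, a4, e.trans a5⟩

omit [Fintype σ] in
theorem dec {r : σ → ℕ} {P : MvPolynomial σ ℚ} (hP : P ∈ dg r) (z : σ) :
    ∃ N ≤ r z + 1, ∃ f g : Fin N → MvPolynomial σ ℚ,
      (∀ j, f j ∈ dg fun h => if h = z then 0 else r h) ∧
      (∀ j, g j ∈ dg fun h => if h = z then r z else 0) ∧
      LinearIndependent ℚ f ∧ LinearIndependent ℚ g ∧ P = ∑ j, f j * g j := by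
  let F : ℕ → MvPolynomial σ ℚ := fun k =>
    ∑ a ∈ P.support with a z = k, monomial (a.erase z) (coeff a P)
  let G : ℕ → MvPolynomial σ ℚ := fun k => monomial (Finsupp.single z k) 1
  have e : P = ∑ k : Fin (r z + 1), F k * G k := by
    rw [Fin.sum_univ_eq_sum_range (fun k => F k * G k)]
    conv_lhs => rw [P.as_sum]
    rw [← Finset.sum_fiberwise_of_maps_to (t := Finset.range (r z + 1)) (g := fun a => a z)
      fun a ha => Finset.mem_range.2 (Nat.lt_succ_of_le (hP a (mem_support_iff.1 ha) z))]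
    refine Finset.sum_congr rfl fun k _ => ?_
    rw [Finset.sum_mul]
    refine Finset.sum_congr rfl fun a ha => ?_
    rw [monomial_mul, mul_one, ← (Finset.mem_filter.1 ha).2, Finsupp.erase_add_single]
  rw [e]
  refine shortest _ _ _ _ _ (fun k => ?_) fun k => ?_
  · refine Submodule.sum_mem _ fun a ha b hb h => ?_
    rw [coeff_monomial] at hb
    have hb2 : a.erase z = b := by by_contra hh; simp [hh] at hb
    subst hb2
    have := hP a (mem_support_iff.1 (Finset.mem_filter.1 ha).1) h
    by_cases hz : h = z <;> simp [hz, this]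
  · intro b hb h
    rw [coeff_monomial] at hb
    have hb2 : Finsupp.single z (k : ℕ) = b := by by_contra hh; simp [hh] at hb
    subst hb2
    have := k.2
    by_cases hz : h = z
    · simp [hz]; omega
    · simp [hz]

end US76.R89
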