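import Pool.Agent.Lib.US76.Roth89b

/-! Weights, sizes and integrality of determinants; the one-variable case of Roth's lemma. -/

open MvPolynomial

namespace US76.R89

variable {σ : Type} [Fintype σ] [DecidableEq σ]

/-- All monomials of `F` have weight at least `t`. -/
def Ge (w : σ → ℝ) (t : ℝ) (F : MvPolynomial σ ℚ) : Prop :=
  ∀ a, coeff a F ≠ 0 → t ≤ ∑ h, (a h : ℝ) * w h

theorem ge_mul {w : σ → ℝ} {s t : ℝ} {F G : MvPolynomial σ ℚ} (hF : Ge w s F) (hG : Ge w t G) :
    Ge w (s + t) (F * G) := by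
  intro a ha
  rw [coeff_mul] at ha
  obtain ⟨⟨c, d⟩, hcd, h0⟩ := Finset.exists_ne_zero_of_sum_ne_zero ha
  have hcd : c + d = a := by simpa using hcd
  subst hcd
  have h1 := hF c (left_ne_zero_of_mul h0)
  have h2 := hG d (right_ne_zero_of_mul h0)
  simp only [Finsupp.add_apply, Nat.cast_add, add_mul, Finset.sum_add_distrib]
  linarith

theorem ge_prod {ι : Type} [DecidableEq ι] {w : σ → ℝ} (s : Finset ι) {t : ι → ℝ}
    {F : ι → MvPolynomial σ ℚ} (hF : ∀ l, Ge w (t l) (F l)) :
    Ge w (∑ l ∈ s, t l) (∏ l ∈ s, F l) := by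
  induction s using Finset.induction_on with
  | empty =>
    intro a ha
    rw [Finset.prod_empty, coeff_one] at ha
    have : 0 = a := by by_contra hh; simp [hh] at ha
    subst this; simp
  | insert x s hx ih =>
    rw [Finset.prod_insert hx, Finset.sum_insert hx]
    exact ge_mul (hF x) ih

theorem ge_det {n : ℕ} {w : σ → ℝ} {t : Fin n → ℝ} {M : Matrix (Fin n) (Fin n) (MvPolynomial σ ℚ)}
    (hM : ∀ k l, Ge w (t l) (M k l)) : Ge w (∑ l, t l) M.det := by
  intro a ha
  rw [Matrix.det_apply, coeff_sum] at ha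
  obtain ⟨p, -, h0⟩ := Finset.exists_ne_zero_of_sum_ne_zero ha
  rw [Units.smul_def, coeff_smul] at h0
  exact ge_prod _ (fun l => hM (p l) l) a (right_ne_zero_of_smul h0)

theorem dg_det {n : ℕ} {ρ : σ → ℕ} {M : Matrix (Fin n) (Fin n) (MvPolynomial σ ℚ)}
    (hM : ∀ k l, M k l ∈ dg ρ) : M.det ∈ dg fun h => n * ρ h := by
  intro a ha h
  have key : ∀ b : σ →₀ ℕ, ∑ k, (b k : ℝ) * (if k = h then -1 else 0) = -(b h : ℝ) := by
    intro b; simp
  have := ge_det (w := fun k => if k = h then -1 else 0) (t := fun _ => -(ρ h : ℝ)) (M := M)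
    (fun k l b hb => by
      rw [key]
      exact neg_le_neg (by exact_mod_cast hM k l b hb h)) a ha
  rw [key] at this
  simp only [Finset.sum_const, Finset.card_univ, Fintype.card_fin, nsmul_eq_mul, mul_neg,
    neg_le_neg_iff] at this
  exact_mod_cast this

/-- All coefficients are integers. -/
def Zc (F : MvPolynomial σ ℚ) : Prop := ∀ a, coeff a F ∈ (Int.castRingHom ℚ).range

omit [Fintype σ] in
theorem zc_prod {ι : Type} [DecidableEq ι] (s : Finset ι) {F : ι → MvPolynomial σ ℚ}
    (hF : ∀ l, Zc (F l)) : Zc (∏ l ∈ s, F l) := by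
  induction s using Finset.induction_on with
  | empty =>
    intro a
    rw [Finset.prod_empty, coeff_one]
    split_ifs
    · exact one_mem _
    · exact zero_mem _
  | insert x s hx ih =>
    intro a
    rw [Finset.prod_insert hx, coeff_mul]
    exact sum_mem fun c _ => mul_mem (hF x _) (ih _)

omit [Fintype σ] in
theorem zc_det {n : ℕ} {M : Matrix (Fin n) (Fin n) (MvPolynomial σ ℚ)}
    (hM : ∀ k l, Zc (M k l)) : Zc M.det := by
  intro a
  rw [Matrix.det_apply, coeff_sum]
  refine sum_mem fun p _ => ?_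
  rw [Units.smul_def, coeff_smul]
  exact zsmul_mem (zc_prod _ (fun l => hM (p l) l) a) _

theorem zc_hs {F : MvPolynomial σ ℚ} (hF : Zc F) (i : σ →₀ ℕ) : Zc (hs i F) := by
  intro a
  rw [coeff_hs]
  exact mul_mem (hF _) (natCast_mem _ _)

/-- All coefficients are at most `B` in absolute value. -/
def Bd (B : ℝ) (F : MvPolynomial σ ℚ) : Prop := ∀ a, |((coeff a F : ℚ) : ℝ)| ≤ B

theorem card_le {ρ : σ → ℕ} {F : MvPolynomial σ ℚ} (hF : F ∈ dg ρ) :
    (F.support.card : ℝ) ≤ Real.exp (∑ h, (ρ h : ℝ)) := by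
  have h1 : F.support.card ≤ (Fintype.piFinset fun h => Finset.range (ρ h + 1)).card := by
    refine Finset.card_le_card_of_injOn (fun a => (a : σ → ℕ)) (fun a ha => ?_)
      fun a _ b _ hab => DFunLike.coe_injective hab
    simp only [Finset.mem_coe, Fintype.mem_piFinset, Finset.mem_range]
    exact fun h => Nat.lt_succ_of_le (hF a (mem_support_iff.1 ha) h)
  rw [Fintype.card_piFinset] at h1
  have h2 : (F.support.card : ℝ) ≤ ∏ h, ((ρ h : ℝ) + 1) := by
    simp only [Finset.card_range] at h1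
    exact_mod_cast h1
  rw [Real.exp_sum]
  exact h2.trans (Finset.prod_le_prod (fun h _ => by positivity) fun h _ => Real.add_one_le_exp _)

theorem bd_hs {ρ : σ → ℕ} {B : ℝ} {F : MvPolynomial σ ℚ} (hF : F ∈ dg ρ) (hB : Bd B F)
    (i : σ →₀ ℕ) : Bd (B * Real.exp (∑ h, (ρ h : ℝ))) (hs i F) := by
  intro a
  have hB0 : 0 ≤ B := (abs_nonneg _).trans (hB 0)
  rw [coeff_hs]
  by_cases h0 : coeff (a + i) F = 0
  · rw [h0]; simp only [zero_mul, Rat.cast_zero, abs_zero]; positivity
  push_cast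
  rw [abs_mul, Nat.abs_cast]
  refine mul_le_mul (hB _) ?_ (by positivity) hB0
  rw [Real.exp_sum, bn]
  push_cast
  refine Finset.prod_le_prod (fun h _ => by positivity) fun h _ => ?_
  have h1 : ((a + i) h).choose (i h) ≤ 2 ^ ρ h :=
    (Nat.choose_le_two_pow _ _).trans (Nat.pow_le_pow_right (by norm_num) (hF _ h0 h))
  have h2 : (2 : ℝ) ^ ρ h ≤ Real.exp (ρ h) := by
    rw [← Real.exp_one_pow]
    exact pow_le_pow_left₀ (by norm_num) (by linarith [Real.add_one_le_exp (1 : ℝ)]) _
  exact le_trans (by exact_mod_cast h1) h2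

omit [Fintype σ] [DecidableEq σ] in
theorem bd_mul {K B D : ℝ} {F G : MvPolynomial σ ℚ} (hK : (F.support.card : ℝ) ≤ K) (hF : Bd B F)
    (hG : Bd D G) : Bd (K * B * D) (F * G) := by
  intro c
  have hB0 : 0 ≤ B := (abs_nonneg _).trans (hF 0)
  have hD0 : 0 ≤ D := (abs_nonneg _).trans (hG 0)
  conv_lhs => rw [F.as_sum, Finset.sum_mul, coeff_sum]
  push_cast
  refine (Finset.abs_sum_le_sum_abs _ _).trans ?_
  refine (Finset.sum_le_card_nsmul _ _ (B * D) fun a _ => ?_).trans ?_
  · rw [coeff_monomial_mul']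
    split_ifs
    · push_cast
      rw [abs_mul]
      exact mul_le_mul (hF _) (hG _) (abs_nonneg _) hB0
    · simp only [Rat.cast_zero, abs_zero]; positivity
  · rw [nsmul_eq_mul, mul_assoc]
    exact mul_le_mul_of_nonneg_right hK (by positivity)

omit [Fintype σ] in
theorem bd_prod {ι : Type} [DecidableEq ι] (s : Finset ι) {K B : ℝ} {F : ι → MvPolynomial σ ℚ}
    (hK : ∀ l, ((F l).support.card : ℝ) ≤ K) (hF : ∀ l, Bd B (F l)) :
    Bd ((K * B) ^ s.card) (∏ l ∈ s, F l) := by
  induction s using Finset.induction_on with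
  | empty =>
    intro a
    rw [Finset.prod_empty, coeff_one]
    split_ifs <;> simp
  | insert x s hx ih =>
    rw [Finset.prod_insert hx, Finset.card_insert_of_notMem hx, pow_succ']
    exact bd_mul (hK x) (hF x) ih

omit [Fintype σ] in
theorem bd_det {n : ℕ} {K B : ℝ} {M : Matrix (Fin n) (Fin n) (MvPolynomial σ ℚ)}
    (hK : ∀ k l, ((M k l).support.card : ℝ) ≤ K) (hM : ∀ k l, Bd B (M k l)) :
    Bd (n.factorial * (K * B) ^ n) M.det := by
  intro a
  rw [Matrix.det_apply, coeff_sum]
  push_cast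
  refine (Finset.abs_sum_le_sum_abs _ _).trans ?_
  refine (Finset.sum_le_card_nsmul _ _ ((K * B) ^ n) fun p _ => ?_).trans ?_
  · have := bd_prod Finset.univ (fun l => hK (p l) l) (fun l => hM (p l) l) a
    rw [Finset.card_univ, Fintype.card_fin] at this
    rcases Int.units_eq_one_or (Equiv.Perm.sign p) with h | h <;> simpa [h] using this
  · simp [Fintype.card_perm]

omit [Fintype σ] in
theorem coeff_aeval_X (z : σ) (q : Polynomial ℚ) (k : ℕ) :
    coeff (Finsupp.single z k) (Polynomial.aeval (X z : MvPolynomial σ ℚ) q) = q.coeff k := by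
  induction q using Polynomial.induction_on' with
  | add p q hp hq => rw [map_add, coeff_add, hp, hq, Polynomial.coeff_add]
  | monomial n c =>
    rw [Polynomial.aeval_monomial, algebraMap_eq, coeff_C_mul, X_pow_eq_monomial, coeff_monomial,
      Polynomial.coeff_monomial]
    simp only [(Finsupp.single_injective z).eq_iff]
    split_ifs <;> simp

theorem height_le (p : Polynomial ℤ) (hp : p ≠ 0) (x : ℚ) (K : ℕ) (B : ℝ)
    (hB : ∀ k, |(p.coeff k : ℝ)| ≤ B)
    (hd : (Polynomial.X - Polynomial.C x) ^ K ∣ p.map (Int.castRingHom ℚ)) :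
    ((max x.num.natAbs x.den : ℕ) : ℝ) ^ K ≤ B := by
  set u : Polynomial ℤ := Polynomial.C (x.den : ℤ) * Polynomial.X - Polynomial.C x.num with hu
  have hden : (x.den : ℤ) ≠ 0 := by exact_mod_cast x.den_nz
  have c0 : u.coeff 0 = -x.num := by simp [hu]
  have c1 : u.coeff 1 = x.den := by
    rw [hu, Polynomial.coeff_sub, Polynomial.coeff_C_mul, Polynomial.coeff_X_one,
      Polynomial.coeff_C_succ]; simp
  have hprim : u.IsPrimitive := by
    rw [Polynomial.isPrimitive_iff_isUnit_of_C_dvd]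
    intro r hr
    rw [Polynomial.C_dvd_iff_dvd_coeff] at hr
    have h0 := hr 0
    have h1 := hr 1
    rw [c0, dvd_neg] at h0
    rw [c1] at h1
    exact (Rat.isCoprime_num_den x).isUnit_of_dvd' h0 h1
  have hprimK : ∀ K : ℕ, (u ^ K).IsPrimitive := by
    intro K
    induction K with
    | zero => simp
    | succ K ih => rw [pow_succ]; exact ih.mul hprim
  have hum : u.map (Int.castRingHom ℚ)
      = Polynomial.C (x.den : ℚ) * (Polynomial.X - Polynomial.C x) := by
    rw [hu, mul_sub, ← Polynomial.C_mul, mul_comm (x.den : ℚ) x, Rat.mul_den_eq_num]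
    simp
  have hdv : u ^ K ∣ p := by
    refine (hprimK K).dvd_of_fraction_map_dvd_fraction_map (K := ℚ) ?_
    rw [Polynomial.map_pow, algebraMap_int_eq, hum, mul_pow, ← Polynomial.C_pow]
    exact (Polynomial.C_mul_dvd (pow_ne_zero _ (by exact_mod_cast x.den_nz))).2 hd
  obtain ⟨v, rfl⟩ := hdv
  have hv : v ≠ 0 := right_ne_zero_of_mul hp
  have hdeg : u.natDegree = 1 := by
    rw [hu, sub_eq_add_neg, ← Polynomial.C_neg]
    exact Polynomial.natDegree_linear hden
  have key : ∀ (y t : ℤ) (k : ℕ), t ≠ 0 → (u ^ K * v).coeff k = y ^ K * t →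
      ((y.natAbs : ℕ) : ℝ) ^ K ≤ B := by
    intro y t k ht h
    refine le_trans ?_ (hB k)
    rw [h]
    push_cast
    rw [abs_mul, abs_pow, Nat.cast_natAbs, Int.cast_abs]
    refine le_mul_of_one_le_right (by positivity) ?_
    exact_mod_cast Int.one_le_abs ht
  rcases le_total x.num.natAbs x.den with h | h
  · rw [max_eq_right h]
    have := key x.den v.leadingCoeff (u ^ K * v).natDegree (Polynomial.leadingCoeff_ne_zero.2 hv)
      (by
        change (u ^ K * v).leadingCoeff = _
        rw [Polynomial.leadingCoeff_mul, Polynomial.leadingCoeff_pow, Polynomial.leadingCoeff,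
          hdeg, c1])
    simpa using this
  · rw [max_eq_left h]
    have hn : u.coeff 0 ≠ 0 := by
      rw [c0, neg_ne_zero, ← Int.natAbs_ne_zero]
      have := x.pos
      omega
    have htr : ∀ K : ℕ, (u ^ K).trailingCoeff = (-x.num) ^ K := by
      intro K
      induction K with
      | zero => simp [Polynomial.trailingCoeff]
      | succ K ih =>
        rw [pow_succ, Polynomial.trailingCoeff_mul, ih, pow_succ,
          Polynomial.trailingCoeff_eq_coeff_zero hn, c0]
    have := key (-x.num) v.trailingCoeff (u ^ K * v).natTrailingDegree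
      (mt Polynomial.trailingCoeff_eq_zero.1 hv)
      (by
        change (u ^ K * v).trailingCoeff = _
        rw [Polynomial.trailingCoeff_mul, htr])
    simpa using this

omit [Fintype σ] in
theorem one_var {z : σ} {τ : σ → ℕ} (hτ : ∀ h, h ≠ z → τ h = 0) {V : MvPolynomial σ ℚ}
    (hV : V ∈ dg τ) (h0 : V ≠ 0) (hZ : Zc V) {β t : ℝ} (hB : Bd (Real.exp β) V) (ξ : σ → ℚ)
    (ht : 0 ≤ t) (hH : 0 < Real.log (max (ξ z).num.natAbs (ξ z).den : ℕ))
    (hβ : β ≤ t * Real.log (max (ξ z).num.natAbs (ξ z).den : ℕ)) :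
    ∃ k : ℕ, coeff (Finsupp.single z k) (sh ξ V) ≠ 0 ∧ (k : ℝ) ≤ t := by
  obtain ⟨q, hq⟩ : ∃ q : Polynomial ℚ, Polynomial.aeval (X z : MvPolynomial σ ℚ) q = V := by
    refine ⟨∑ a ∈ V.support, Polynomial.monomial (a z) (coeff a V), ?_⟩
    conv_rhs => rw [V.as_sum]
    rw [map_sum]
    refine Finset.sum_congr rfl fun a ha => ?_
    rw [Polynomial.aeval_monomial, algebraMap_eq, C_mul_X_pow_eq_monomial]
    congr 2
    ext h
    by_cases hz : h = z
    · simp [hz]
    · have := hV a (mem_support_iff.1 ha) h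
      rw [hτ h hz] at this
      simp only [Finsupp.single_eq_of_ne hz]
      omega
  obtain ⟨p, hp⟩ : ∃ p : Polynomial ℤ, p.map (Int.castRingHom ℚ) = q := by
    rw [← Polynomial.mem_lifts, Polynomial.lifts_iff_coeff_lifts]
    intro k
    rw [← coeff_aeval_X z, hq]
    exact hZ _
  have hsh : sh ξ V = Polynomial.aeval (X z : MvPolynomial σ ℚ) (Polynomial.taylor (ξ z) q) := by
    rw [← hq, ← Polynomial.aeval_algHom_apply, Polynomial.taylor_apply, Polynomial.aeval_comp]
    simp [sh]
  by_contra hcon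
  push Not at hcon
  have hd : Polynomial.X ^ (⌊t⌋₊ + 1) ∣ Polynomial.taylor (ξ z) q := by
    rw [Polynomial.X_pow_dvd_iff]
    intro d hd
    by_contra h1
    have := hcon d (by rwa [hsh, coeff_aeval_X])
    have h2 : (d : ℝ) ≤ ⌊t⌋₊ := by exact_mod_cast Nat.lt_succ_iff.1 hd
    linarith [Nat.floor_le ht]
  have hd2 : (Polynomial.X - Polynomial.C (ξ z)) ^ (⌊t⌋₊ + 1) ∣ p.map (Int.castRingHom ℚ) := by
    rw [hp, Polynomial.X_sub_C_pow_dvd_iff]
    exact hd
  have hp0 : p ≠ 0 := by
    rintro rfl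
    exact h0 (by rw [← hq, ← hp]; simp)
  have h3 := height_le p hp0 (ξ z) _ (Real.exp β) (fun k => by
    have := hB (Finsupp.single z k)
    rw [← hq, coeff_aeval_X, ← hp, Polynomial.coeff_map] at this
    simpa using this) hd2
  have hpos : (0 : ℝ) < (max (ξ z).num.natAbs (ξ z).den : ℕ) := by
    exact_mod_cast lt_max_of_lt_right (ξ z).pos
  rw [← Real.log_le_iff_le_exp (by positivity), Real.log_pow] at h3
  have h4 := Nat.lt_floor_add_one t
  push_cast at h3 hH hβ
  nlinarith

end US76.R89
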